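import Pool.Agent.Q187.ZD.GT

/-!
# The motivic Galois group and GT: a defect is visible in all large degrees

`GT_1` is the kernel of `GT → G_m`, `U_mot` the prounipotent radical of the motivic Galois group;
both coordinate rings are graded by the action of `G_m`. The part of degree `N` of the coordinate
ring of `U_mot` has dimension `u N`, the number of ordered sums of odd numbers `≥ 3` equal to `N`.
If the map is not surjective, there is a `k` with `dim E_N ≥ u N + u (N - k) + u (N - 2 k) + ...`,
where `E` is the coordinate ring of `GT_1`, and `dim E_N` exceeds `u N` by a fixed proportion for all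
large `N`. So the map to GT is an isomorphism if and only if the dimensions agree in infinitely many
degrees, or asymptotically along some sequence of degrees.
-/

set_option autoImplicit false

open Module

namespace Pool.Agent.Results.MP_446dfa_ag.DefectsGrow

open Pool.Agent.Q187.ZD
open Pool.Agent.Q187.ZD.GT

theorem result (u : ℕ → ℕ) (hu : IsOdd3 u) {E H : Type} [CommRing E] [Algebra ℚ E] [CommRing H]
    [Algebra ℚ H] (gr : ℕ → Submodule ℚ E) (gr' : ℕ → Submodule ℚ H) (π : E →ₐ[ℚ] H)
    (hp : IsPair u gr gr' π) :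
    (¬ Function.Bijective π → ∃ k,
      (∀ m N, m * k ≤ N → ∑ i ∈ Finset.range (m + 1), u (N - i * k) ≤ finrank ℚ (gr N)) ∧
      ∀ N, k + 5 ≤ N → (1 + (2 ^ k : ℝ)⁻¹) * u N ≤ finrank ℚ (gr N)) ∧
    (Function.Bijective π ↔ {N | finrank ℚ (gr N) = u N}.Infinite) ∧
    (Function.Bijective π ↔
      ∀ ε : ℝ, 0 < ε → ∀ N₀, ∃ N ≥ N₀, (finrank ℚ (gr N) : ℝ) ≤ (1 + ε) * u N) := by
  refine ⟨fun hb => ?_, infinite_iff hu hp, liminf_iff hu hp⟩
  rw [bijective_iff hp] at hb
  push Not at hb
  obtain ⟨k, hk⟩ := hb
  exact ⟨k, fun m N hN => extra_sum (isFormal hp) hk m hN, fun N hN => share hu hp hk hN⟩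

end Pool.Agent.Results.MP_446dfa_ag.DefectsGrow
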