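import Pool.Agent.Q187.ZD.GT

/-!
# The motivic Galois group and GT: one degree decides the lower degrees

`GT_1` is the kernel of `GT → G_m`, `U_mot` the prounipotent radical of the motivic Galois group;
both coordinate rings are graded by the action of `G_m`. The part of degree `N` of the coordinate
ring of `U_mot` has dimension `u N`, the number of ordered sums of odd numbers `≥ 3` equal to `N`.
If the coordinate ring `E` of `GT_1` has dimension `u N` in one degree `N`, this is true in all
degrees `k ≤ N` with `N - k ∉ {1, 2, 4}`, and the map is an isomorphism in these degrees.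
-/

set_option autoImplicit false

open Module

namespace Pool.Agent.Results.MP_446dfa_ag.OneDegree

open Pool.Agent.Q187.ZD
open Pool.Agent.Q187.ZD.GT

theorem result (u : ℕ → ℕ) (hu : IsOdd3 u) {E H : Type} [CommRing E] [Algebra ℚ E] [CommRing H]
    [Algebra ℚ H] (gr : ℕ → Submodule ℚ E) (gr' : ℕ → Submodule ℚ H) (π : E →ₐ[ℚ] H)
    (hp : IsPair u gr gr' π) (N : ℕ) (hN : finrank ℚ (gr N) = u N) (k : ℕ) (hk : k ≤ N)
    (h1 : N - k ≠ 1) (h2 : N - k ≠ 2) (h4 : N - k ≠ 4) :
    finrank ℚ (gr k) = u k ∧ ∀ x ∈ gr k, π x = 0 → x = 0 := by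
  have h := one_weight hu hp hN hk h1 h2 h4
  exact ⟨h, (complete_iff (isFormal hp) k).2 h⟩

end Pool.Agent.Results.MP_446dfa_ag.OneDegree
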